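import Pool.Agent.Y997.NW.Stm

set_option autoImplicit false

open MeasureTheory Set Topology Filter

/-! # Project NW, job ZERO -/

namespace Pool.Agent.Y369.NW

open Pool.Agent.W581.Cyc Pool.Agent.Y997.NW

theorem cs_nonneg (v z : C2) : 0 ≤ cs v z := by
  unfold cs; positivity

theorem cs_le_one (v z : C2) : cs v z ≤ 1 := by
  unfold cs; exact Real.cos_sq_le_one _

theorem thin_nonneg (v p : C2) (δ : ℝ) (n : ℕ) (z : C2) : 0 ≤ thin v p δ n z :=
  mul_nonneg (bump_nonneg p δ z) (pow_nonneg (cs_nonneg v z) n)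

theorem thin_anti (v p : C2) (δ : ℝ) {m n : ℕ} (h : m ≤ n) (z : C2) :
    thin v p δ n z ≤ thin v p δ m z :=
  mul_le_mul_of_nonneg_left (pow_le_pow_of_le_one (cs_nonneg v z) (cs_le_one v z) h)
    (bump_nonneg p δ z)

theorem tangentValue_thinForm {V : Set C2} {z : C2} (hz : z ∈ regularPoints V) (v p : C2) (δ : ℝ)
    (n : ℕ) : tangentValue V (thinForm v p δ n).1 z = thin v p δ n z := by
  unfold tangentValue
  have h := exists_unitTangent hz
  rw [dif_pos h]
  show (thin v p δ n z • kahler) ![h.choose, Complex.I • h.choose] = _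
  rw [ContinuousAlternatingMap.smul_apply, kahler_apply, smul_eq_mul, h.choose_spec.1]
  simp

theorem integrationCurrent_thinForm (V : Set C2)
    (hm : MeasurableSet (regularPoints V ∩ unitCube)) (v p : C2) (δ : ℝ) (n : ℕ) :
    integrationCurrent V (thinForm v p δ n).1 =
      ∫ z in regularPoints V ∩ unitCube, thin v p δ n z ∂area := by
  unfold integrationCurrent
  exact setIntegral_congr_fun hm fun z hz => tangentValue_thinForm hz.1 v p δ n

theorem null_set (hD : S_DICH) {V : Set C2} {v p : C2} {δ : ℝ}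
    (h : ∀ z ∈ regularPoints V, D p z < δ → cs v z = 1 → ¬ LineAt V z) :
    area (regularPoints V ∩ {z | D p z < δ ∧ cs v z = 1}) = 0 := by
  refine measure_null_of_locally_null _ fun z hz => ?_
  rcases hD V v z hz.1 with hl | ⟨N, hN, h0⟩
  · exact absurd hl (h z hz.1 hz.2.1 hz.2.2)
  · refine ⟨N ∩ (regularPoints V ∩ {z | D p z < δ ∧ cs v z = 1}),
      inter_mem (mem_nhdsWithin_of_mem_nhds hN) self_mem_nhdsWithin, ?_⟩
    refine measure_mono_null ?_ h0
    rintro w ⟨hwN, hwr, -, hwc⟩
    exact ⟨⟨hwr.1, hwN⟩, hwc⟩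

theorem t_ZERO (hD : S_DICH) : S_ZERO := by
  intro U V v p δ hU hV h
  have hA : MeasurableSet (regularPoints V ∩ unitCube) :=
    (measurableSet_regularPoints hU hV).inter measurableSet_unitCube
  have hnull := null_set hD h
  have hae : ∀ᵐ z ∂(area.restrict (regularPoints V ∩ unitCube)),
      Tendsto (fun n => thin v p δ n z) atTop (𝓝 0) := by
    rw [ae_restrict_iff' hA]
    have h1 : ∀ᵐ z ∂area, z ∉ regularPoints V ∩ {z | D p z < δ ∧ cs v z = 1} :=
      measure_eq_zero_iff_ae_notMem.1 hnull
    filter_upwards [h1] with z hz hzA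
    by_cases hd : D p z < δ
    · have hc : cs v z < 1 := lt_of_le_of_ne (cs_le_one v z) fun hc => hz ⟨hzA.1, hd, hc⟩
      have h2 := (tendsto_pow_atTop_nhds_zero_of_lt_one (cs_nonneg v z) hc).const_mul (bump p δ z)
      rw [mul_zero] at h2
      exact h2
    · have hb : bump p δ z = 0 := (bump_eq_zero_iff p δ z).2 (not_lt.1 hd)
      have h3 : (fun n => thin v p δ n z) = fun _ => 0 := by
        funext n; unfold thin; rw [hb, zero_mul]
      rw [h3]
      exact tendsto_const_nhds
  have hcur : (fun n => integrationCurrent V (thinForm v p δ n).1) =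
      fun n => ∫ z in regularPoints V ∩ unitCube, thin v p δ n z ∂area := by
    funext n; exact integrationCurrent_thinForm V hA v p δ n
  rw [hcur]
  by_cases hi : ∃ n₀, Integrable (thin v p δ n₀) (area.restrict (regularPoints V ∩ unitCube))
  · obtain ⟨n₀, hi⟩ := hi
    rw [← tendsto_add_atTop_iff_nat n₀]
    have h4 := tendsto_integral_of_dominated_convergence
      (μ := area.restrict (regularPoints V ∩ unitCube))
      (F := fun n z => thin v p δ (n + n₀) z) (f := fun _ => (0 : ℝ)) (thin v p δ n₀)
      (fun n => (contDiff_thin v p δ (n + n₀)).continuous.aestronglyMeasurable) hi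
      (fun n => Eventually.of_forall fun z => by
        rw [Real.norm_of_nonneg (thin_nonneg v p δ (n + n₀) z)]
        exact thin_anti v p δ (Nat.le_add_left n₀ n) z)
      (by
        filter_upwards [hae] with z hz
        exact (tendsto_add_atTop_iff_nat n₀).2 hz)
    rw [integral_zero] at h4
    exact h4
  · have h5 : (fun n => ∫ z in regularPoints V ∩ unitCube, thin v p δ n z ∂area) = fun _ => 0 := by
      funext n
      exact integral_undef fun hn => hi ⟨n, hn⟩
    rw [h5]
    exact tendsto_const_nhds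

end Pool.Agent.Y369.NW
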